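import Pool.Agent.Helper12.XG.St

/-!
# Project XG, module NIN: `t Phi i N` is nearly `integer + ϑ * integer`
-/

set_option autoImplicit false

namespace Pool.Agent.Helper42.XG

open Finset Polynomial Pool.Agent.Helper12.XG Pool.Agent.Helper14.GS

private theorem fI_bound (h q i : ℕ) (β : ℕ → ℕ → ℤ) (Bd u : ℝ)
    (hβ : ∀ j b, |(β j b : ℝ)| ≤ Bd) (hi : i ≤ q) (hu : 1 ≤ u) :
    |fI h q β i u| ≤ ((h : ℝ) + 1) * (q * Bd * 2 ^ (2 * q)) := by
  have hB : 0 ≤ Bd := le_trans (abs_nonneg _) (hβ 0 0)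
  unfold fI
  have key : ∀ j ∈ range (h + 1), |∑ b ∈ range q,
      (β j b : ℝ) * ((-1) ^ i * ((b + i).choose i : ℝ)) * ((u + (j : ℝ))⁻¹) ^ (b + 1 + i)| ≤
      q * Bd * 2 ^ (2 * q) := by
    intro j _
    refine (Finset.abs_sum_le_sum_abs _ _).trans ?_
    have hb : ∀ b ∈ range q,
        |(β j b : ℝ) * ((-1) ^ i * ((b + i).choose i : ℝ)) * ((u + (j : ℝ))⁻¹) ^ (b + 1 + i)| ≤
        Bd * 2 ^ (2 * q) := by
      intro b hb
      have hbq := Finset.mem_range.mp hb
      rw [abs_mul, abs_mul]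
      have hc : |((-1 : ℝ)) ^ i * ((b + i).choose i : ℝ)| ≤ 2 ^ (2 * q) := by
        rw [abs_mul, abs_pow, abs_neg, abs_one, one_pow, one_mul, abs_of_nonneg (by positivity)]
        calc (((b + i).choose i : ℕ) : ℝ) ≤ ((2 ^ (b + i) : ℕ) : ℝ) := by
              exact_mod_cast Nat.choose_le_two_pow (b + i) i
          _ = (2 : ℝ) ^ (b + i) := by push_cast; rfl
          _ ≤ 2 ^ (2 * q) := by
              apply pow_le_pow_right₀ (by norm_num)
              omega
      have hj : (0 : ℝ) ≤ (j : ℝ) := Nat.cast_nonneg j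
      have hp : |((u + (j : ℝ))⁻¹) ^ (b + 1 + i)| ≤ 1 := by
        rw [abs_pow]
        apply pow_le_one₀ (abs_nonneg _)
        rw [abs_of_nonneg (by positivity)]
        apply inv_le_one_of_one_le₀
        linarith
      calc |(β j b : ℝ)| * |((-1 : ℝ)) ^ i * ((b + i).choose i : ℝ)| *
            |((u + (j : ℝ))⁻¹) ^ (b + 1 + i)|
          ≤ (Bd * 2 ^ (2 * q)) * 1 := by
            apply mul_le_mul _ hp (abs_nonneg _) (by positivity)
            exact mul_le_mul (hβ j b) hc (abs_nonneg _) hB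
        _ = _ := mul_one _
    refine (Finset.sum_le_sum hb).trans ?_
    rw [Finset.sum_const, card_range, nsmul_eq_mul]
    apply le_of_eq; ring
  refine (Finset.abs_sum_le_sum_abs _ _).trans ((Finset.sum_le_sum key).trans ?_)
  rw [Finset.sum_const, card_range, nsmul_eq_mul]
  apply le_of_eq; push_cast; ring

private theorem Phi_bound (h q i N : ℕ) (β : ℕ → ℕ → ℤ) (Bd : ℝ)
    (hβ : ∀ j b, |(β j b : ℝ)| ≤ Bd) (hi : i ≤ q) (hN : 1 ≤ N) :
    |Phi h q β i N| ≤ ((h : ℝ) + 1) * (q * Bd * 2 ^ (2 * q)) := by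
  unfold Phi
  have hN' : (1 : ℝ) ≤ (N : ℝ) := by exact_mod_cast hN
  have h1 : ∀ x ∈ Set.uIoc (0 : ℝ) 1,
      ‖x ^ (2 * q) * (1 - x) ^ (2 * q) * fI h q β i ((N : ℝ) + x)‖ ≤
      ((h : ℝ) + 1) * (q * Bd * 2 ^ (2 * q)) := by
    intro x hx
    rw [Set.uIoc_of_le (by norm_num)] at hx
    obtain ⟨hx0, hx1⟩ := hx
    rw [Real.norm_eq_abs, abs_mul]
    have hf := fI_bound h q i β Bd ((N : ℝ) + x) hβ hi (by linarith)
    have hk : |x ^ (2 * q) * (1 - x) ^ (2 * q)| ≤ 1 := by
      rw [abs_mul, abs_pow, abs_pow, abs_of_nonneg hx0.le, abs_of_nonneg (by linarith)]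
      exact mul_le_one₀ (pow_le_one₀ hx0.le hx1) (by positivity)
        (pow_le_one₀ (by linarith) (by linarith))
    calc |x ^ (2 * q) * (1 - x) ^ (2 * q)| * |fI h q β i ((N : ℝ) + x)|
        ≤ 1 * (((h : ℝ) + 1) * (q * Bd * 2 ^ (2 * q))) :=
          mul_le_mul hk hf (abs_nonneg _) zero_le_one
      _ = _ := one_mul _
  have h2 := intervalIntegral.norm_integral_le_of_norm_le_const h1
  rw [Real.norm_eq_abs] at h2
  simpa using h2

theorem hNIN (hA : StARI) : StNIN := by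
  intro h q i N d y β Bd t ε ν' hβ hN hi hd hdiv hy hν
  obtain ⟨a, R, ha, hR⟩ := hA h q i N d β Bd hβ hN hi hdiv
  have hB : 0 ≤ Bd := le_trans (abs_nonneg _) (hβ 0 0)
  have hN' : (1 : ℝ) ≤ (N : ℝ) := by exact_mod_cast hN
  have hd0 : (0 : ℝ) < (d : ℝ) := by exact_mod_cast (by omega : 0 < d)
  have hε : 0 ≤ ε := le_trans (abs_nonneg _) (hν 1 le_rfl (by omega))
  set Wa : ℝ := q * Bd * 2 ^ (2 * q) * ((N : ℝ) + h + 2) ^ (4 * q) with hWa
  have hh : (0 : ℝ) ≤ (h : ℝ) := Nat.cast_nonneg h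
  have hWa0 : 0 ≤ Wa := by positivity
  set lam : ℕ → ℝ := fun j => Real.log (((N : ℝ) + j + 1) / ((N : ℝ) + j)) with hlam
  have hpos : ∀ j : ℕ, (0 : ℝ) < (N : ℝ) + j := fun j => by
    have : (0 : ℝ) ≤ (j : ℝ) := Nat.cast_nonneg j
    linarith
  have hlamlog : ∀ j : ℕ, lam j = Real.log (((N + j + 1 : ℕ) : ℝ)) - Real.log ((N + j : ℕ) : ℝ) := by
    intro j
    have := hpos j
    rw [hlam]
    simp only
    rw [Real.log_div (by linarith) (by linarith)]
    push_cast
    rfl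
  have hlam01 : ∀ j : ℕ, |lam j| ≤ 1 := by
    intro j
    have hj := hpos j
    have hj0 : (0 : ℝ) ≤ (j : ℝ) := Nat.cast_nonneg j
    have h1 : (1 : ℝ) ≤ ((N : ℝ) + j + 1) / ((N : ℝ) + j) := by
      rw [le_div_iff₀ hj]; linarith
    have h2 : ((N : ℝ) + j + 1) / ((N : ℝ) + j) - 1 ≤ 1 := by
      rw [div_sub_one (by linarith), div_le_one hj]; linarith
    have h3 : 0 ≤ lam j := Real.log_nonneg h1
    have h4 : lam j ≤ ((N : ℝ) + j + 1) / ((N : ℝ) + j) - 1 :=
      Real.log_le_sub_one_of_pos (by linarith)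
    rw [abs_of_nonneg h3]
    linarith
  have hR' : (d : ℝ) * Phi h q β i N = (d : ℝ) * (∑ j ∈ range (h + 1), (a j : ℝ) * lam j) + R := by
    rw [hR, Finset.mul_sum]
    congr 1
    apply Finset.sum_congr rfl
    intro j _
    rw [hlam]; ring
  refine ⟨∑ j ∈ range (h + 1), a j * (ν' (N + j + 1) - ν' (N + j)), R, ?_, ?_⟩
  · have e1 : t * Phi h q β i N - ((∑ j ∈ range (h + 1), a j * (ν' (N + j + 1) - ν' (N + j)) : ℤ) : ℝ)
        - t / d * R = ∑ j ∈ range (h + 1), (a j : ℝ) *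
          ((t * Real.log ((N + j + 1 : ℕ) : ℝ) - ν' (N + j + 1)) -
            (t * Real.log ((N + j : ℕ) : ℝ) - ν' (N + j))) := by
      have e2 : t * Phi h q β i N = t * (∑ j ∈ range (h + 1), (a j : ℝ) * lam j) + t / d * R := by
        have : Phi h q β i N = (∑ j ∈ range (h + 1), (a j : ℝ) * lam j) + R / d := by
          field_simp
          linarith [hR']
        rw [this]; ring
      rw [e2]
      push_cast
      rw [Finset.mul_sum, add_sub_right_comm, add_sub_cancel_right, ← Finset.sum_sub_distrib]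
      apply Finset.sum_congr rfl
      intro j _
      rw [hlamlog j]
      push_cast
      ring
    rw [e1]
    refine (Finset.abs_sum_le_sum_abs _ _).trans ?_
    have hb : ∀ j ∈ range (h + 1), |(a j : ℝ) *
          ((t * Real.log ((N + j + 1 : ℕ) : ℝ) - ν' (N + j + 1)) -
            (t * Real.log ((N + j : ℕ) : ℝ) - ν' (N + j)))| ≤ Wa * (2 * ε) := by
      intro j hj
      have hjh := Finset.mem_range.mp hj
      rw [abs_mul]
      apply mul_le_mul (ha j hj) _ (abs_nonneg _) hWa0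
      have b1 := hν (N + j + 1) (by omega) (by omega)
      have b2 := hν (N + j) (by omega) (by omega)
      refine (abs_sub _ _).trans ?_
      linarith
    refine (Finset.sum_le_sum hb).trans ?_
    rw [Finset.sum_const, card_range, nsmul_eq_mul]
    apply le_of_eq; push_cast; ring
  · have hPhi := Phi_bound h q i N β Bd hβ hi hN
    have hW1 : ((h : ℝ) + 1) * (q * Bd * 2 ^ (2 * q)) ≤ ((h : ℝ) + 1) * Wa := by
      apply mul_le_mul_of_nonneg_left _ (by linarith)
      rw [hWa]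
      apply le_mul_of_one_le_right (by positivity)
      apply one_le_pow₀
      linarith
    have hsum : |∑ j ∈ range (h + 1), (a j : ℝ) * lam j| ≤ ((h : ℝ) + 1) * Wa := by
      refine (Finset.abs_sum_le_sum_abs _ _).trans ?_
      have hb : ∀ j ∈ range (h + 1), |(a j : ℝ) * lam j| ≤ Wa := by
        intro j hj
        rw [abs_mul]
        calc |(a j : ℝ)| * |lam j| ≤ Wa * 1 :=
              mul_le_mul (ha j hj) (hlam01 j) (abs_nonneg _) hWa0
          _ = Wa := mul_one _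
      refine (Finset.sum_le_sum hb).trans ?_
      rw [Finset.sum_const, card_range, nsmul_eq_mul]
      apply le_of_eq; push_cast; ring
    have hRe : (R : ℝ) = d * (Phi h q β i N - ∑ j ∈ range (h + 1), (a j : ℝ) * lam j) := by
      rw [mul_sub]; linarith [hR']
    rw [hRe, abs_mul, abs_of_pos hd0]
    have h3 : |Phi h q β i N - ∑ j ∈ range (h + 1), (a j : ℝ) * lam j| ≤
        2 * (((h : ℝ) + 1) * Wa) := by
      refine (abs_sub _ _).trans ?_
      linarith
    calc (d : ℝ) * |Phi h q β i N - ∑ j ∈ range (h + 1), (a j : ℝ) * lam j|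
        ≤ d * (2 * (((h : ℝ) + 1) * Wa)) := mul_le_mul_of_nonneg_left h3 hd0.le
      _ = 2 * d * ((h : ℝ) + 1) * Wa := by ring

end Pool.Agent.Helper42.XG
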